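import Pool.Agent.Helper42.QD.Stmts

namespace Pool.Agent.Helper84.QD.K3

open Pool.Agent.Helper42.QD
open Pool.Agent.Helper42.QD.VD

section
variable {D k : Type} [DivisionRing D] [Field k] {c : VD D k} {V : Type}
  [AddCommGroup V] [Module ℂ V] {rho : Representation ℂ (G2 D) V} {l : V →ₗ[ℂ] ℂ}

theorem rho_nn_dg (hl : ∀ x v, l (rho (nn x) v) = c.psi x * l v) {x : D} (hx : x ≠ 0) (b : D)
    (v : V) : l (rho (dg x 1) (rho (nn b) v)) = c.psi (x * b) * l (rho (dg x 1) v) := by
  have h1 : rho (dg x 1) (rho (nn b) v) = rho (nn (x * b)) (rho (dg x 1) v) := by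
    have h2 := dg_nn hx one_ne_zero b
    rw [inv_one, mul_one] at h2
    have h3 : rho (dg x 1 * nn b) v = rho (nn (x * b) * dg x 1) v := by rw [h2]
    rw [map_mul, map_mul] at h3
    exact h3
  rw [h1, hl]

/-- Vanishing for `x` of large valuation. -/
theorem upper (htop : tsp rho (fun _ => 1) = ⊤)
    (hl : ∀ x v, l (rho (nn x) v) = c.psi x * l v) (v : V) :
    ∃ M : ℕ, ∀ x : D, x ≠ 0 → (M : ℤ) ≤ c.v x → l (rho (dg x 1) v) = 0 := by
  have hv : v ∈ tsp rho (fun _ => (1 : ℂ)) := by rw [htop]; exact Submodule.mem_top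
  unfold tsp at hv
  induction hv using Submodule.span_induction with
  | mem w hw =>
    obtain ⟨b, u, rfl⟩ := hw
    refine ⟨(1 - c.v b).natAbs, fun x hx hxM => ?_⟩
    rw [map_sub, map_sub, rho_nn_dg hl hx, one_smul]
    have h1 : c.psi (x * b) = 1 := by
      apply c.psi_P
      have h2 : c.P (c.v x + c.v b) (x * b) := P_mul P_self P_self
      exact P_mono (by omega) h2
    rw [h1, one_mul, sub_self]
  | zero => exact ⟨0, fun x _ _ => by rw [map_zero, map_zero]⟩
  | add u w _ _ hu hw =>
    obtain ⟨M, hM⟩ := hu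
    obtain ⟨N, hN⟩ := hw
    refine ⟨M + N, fun x hx hxM => ?_⟩
    push_cast at hxM
    rw [map_add, map_add, hM x hx (by omega), hN x hx (by omega), add_zero]
  | smul a u _ hu =>
    obtain ⟨M, hM⟩ := hu
    exact ⟨M, fun x hx hxM => by rw [map_smul, map_smul, hM x hx hxM, smul_zero]⟩

end

theorem st_K3 : ST_K3 := by
  classical
  intro D k _ _ _ c V _ _ rho l hsm htop hl v
  obtain ⟨m, hm, hv⟩ := hsm v
  obtain ⟨M, hM⟩ := upper htop hl v
  refine ⟨by simp, m + M, by omega, ?_, ?_⟩
  · intro x u hu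
    have hu' : c.P m u := P_mono (by push_cast; omega) hu
    have h1 := one_add (P_mono (by omega) hu')
    by_cases hx : x = 0
    · simp [hx]
    · have h2 : x * (1 + u) ≠ 0 := mul_ne_zero hx h1.1
      simp only [hx, h2, if_false]
      have h3 : dg (x * (1 + u)) 1 = dg x 1 * dg (1 + u) (1 + 0) := by
        rw [add_zero, dg_mul hx one_ne_zero h1.1 one_ne_zero, mul_one]
      have h4 : rho (dg (x * (1 + u)) 1) v = rho (dg x 1) (rho (dg (1 + u) (1 + 0)) v) := by
        rw [h3, map_mul]
        rfl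
      rw [h4, hv _ (KK_dg (by omega) hu' (c.P_zero m))]
  · intro x hx
    by_cases hx0 : x = 0
    · simp [hx0] at hx
    · simp only [hx0, if_false] at hx
      constructor
      · have h1 : c.P (1 - (m : ℤ)) x := by
          apply psi_dual
          intro b hb
          have h2 := rho_nn_dg hl hx0 b v
          rw [hv _ (KK_nn hb)] at h2
          exact (mul_right_cancel₀ hx (by rw [one_mul]; exact h2)).symm
        rw [P_iff hx0] at h1
        push_cast
        omega
      · by_contra h
        push Not at h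
        push_cast at h
        exact hx (hM x hx0 (by omega))

end Pool.Agent.Helper84.QD.K3
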